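import Pool.Agent.H24.Pin1

set_option autoImplicit false

namespace Pool.Agent.Results.MP_4842e4_lc.Quarter
open Pool.Agent.H11.PT Pool.Agent.H24.Pin

theorem result : ∃ A : Inst → Bool, PolyTime bits (fun b => [b]) A ∧
    ∀ V : Inst, Valid V → density V ≤ 1 / 4 → (Feasible V ↔ A V = true) ∧
      (Feasible V ↔ ∀ j < V.length, fr V j ≠ fr V 0 →
        ∑ i ∈ (Finset.range V.length).filter (fun i => fr V i = fr V 0), du V i + du V j
          ≤ fr V 0) := by
  obtain ⟨A, h1, h2⟩ := pt_alg.inP (L := fun V => alg V = true) fun _ => Iff.rfl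
  exact ⟨A, h1, fun V hV hρ => ⟨(char V hV hρ).trans ((alg_iff V).symm.trans (h2 V)), char V hV hρ⟩⟩

end Pool.Agent.Results.MP_4842e4_lc.Quarter
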